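import Mathlib

open NumberField Polynomial

namespace Pool.Agent.CAC67D

section

variable {s : ℕ} [hs : Fact s.Prime] {K : Type} [Field K] [NumberField K]
  [IsCyclotomicExtension {s} ℚ K]

omit hs [NumberField K] [IsCyclotomicExtension {s} ℚ K] in
lemma coe_prim {z : 𝓞 K} (hz : IsPrimitiveRoot z s) : IsPrimitiveRoot (z : K) s :=
  hz.map_of_injective (f := algebraMap (𝓞 K) K) RingOfIntegers.coe_injective

lemma exists_poly {z : 𝓞 K} (hz : IsPrimitiveRoot z s) (x : 𝓞 K) :
    ∃ g : ℤ[X], x = aeval z g := by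
  obtain ⟨g, hg⟩ := ((coe_prim hz).integralPowerBasis).exists_eq_aeval' x
  refine ⟨g, ?_⟩
  rw [hg, IsPrimitiveRoot.integralPowerBasis_gen]
  rfl

omit hs [NumberField K] [IsCyclotomicExtension {s} ℚ K] in
lemma hom_aeval {A : Type*} [CommRing A] (f : 𝓞 K →+* A) (z : 𝓞 K) (g : ℤ[X]) :
    f (aeval z g) = aeval (f z) g := by
  rw [aeval_def, aeval_def, hom_eval₂]
  congr 1
  ext
  simp

lemma hom_ext {z : 𝓞 K} (hz : IsPrimitiveRoot z s) {A : Type*} [CommRing A] (f g : 𝓞 K →+* A)
    (h : f z = g z) : f = g := by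
  ext x
  obtain ⟨p, hp⟩ := exists_poly hz x
  rw [hp, hom_aeval, hom_aeval, h]

lemma exists_lift {z : 𝓞 K} (hz : IsPrimitiveRoot z s) {A : Type*} [CommRing A] (y : A)
    (hy : ∑ i ∈ Finset.range s, y ^ i = 0) :
    ∃ f : 𝓞 K →+* A, f z = y := by
  set pb := (coe_prim hz).integralPowerBasis with hpb
  have hgen : pb.gen = z := IsPrimitiveRoot.integralPowerBasis_gen _
  have hmin : minpoly ℤ pb.gen = cyclotomic s ℤ := by
    rw [hgen]
    have h := (cyclotomic_eq_minpoly (coe_prim hz) (NeZero.pos s))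
    rw [h, ← minpoly.algebraMap_eq (B := 𝓞 K) (B' := K) RingOfIntegers.coe_injective]
  have h0 : aeval y (minpoly ℤ pb.gen) = 0 := by
    rw [hmin, cyclotomic_prime ℤ s, map_sum]
    simpa using hy
  refine ⟨(pb.lift y h0).toRingHom, ?_⟩
  have := pb.lift_gen y h0
  rw [hgen] at this
  exact this

omit hs in
lemma geom_zero {A : Type*} [CommRing A] [IsDomain A] (y : A) (h1 : y ^ s = 1)
    (h2 : y ≠ 1) : ∑ i ∈ Finset.range s, y ^ i = 0 := by
  have h := geom_sum_mul y s
  rw [h1, sub_self] at h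
  rcases mul_eq_zero.mp h with h | h
  · exact h
  · exact absurd (sub_eq_zero.mp h) h2

/-- A ring homomorphism to a domain from an `s`-th root of unity different from one. -/
lemma exists_lift_dom {z : 𝓞 K} (hz : IsPrimitiveRoot z s) {A : Type*} [CommRing A] [IsDomain A]
    (y : A) (h1 : y ^ s = 1)
    (h2 : y ≠ 1) : ∃ f : 𝓞 K →+* A, f z = y :=
  exists_lift hz y (geom_zero y h1 h2)

/-- Kronecker: an element of absolute value one in the cyclotomic ring. -/
lemma root_of_unity (hs2 : s ≠ 2) {z : 𝓞 K} (hz : IsPrimitiveRoot z s) (τ : 𝓞 K →+* 𝓞 K)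
    (hτ : τ z * z = 1)
    (x : 𝓞 K) (hx : x * τ x = 1) : ∃ k : ℕ, x = (-z) ^ k := by
  have hodd : Odd s := hs.out.odd_of_ne_two hs2
  have hK := coe_prim hz
  have hfin : IsOfFinOrder (x : K) := by
    rw [isOfFinOrder_iff_pow_eq_one]
    obtain ⟨n, hn, hh⟩ := Embeddings.pow_eq_one_of_norm_eq_one K ℂ (x := (x : K))
      (RingOfIntegers.isIntegral_coe x) (by
        intro φ
        let f : 𝓞 K →+* ℂ := φ.comp (algebraMap (𝓞 K) K)
        have h1 : f.comp τ = (starRingEnd ℂ).comp f := by
          apply hom_ext hz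
          have hfz : ‖f z‖ = 1 := by
            have h2 : (f z) ^ s = 1 := by rw [← map_pow, hz.pow_eq_one, map_one]
            have h3 : ‖f z‖ ^ s = 1 := by rw [← norm_pow, h2, norm_one]
            exact (pow_eq_one_iff_of_nonneg (norm_nonneg _) (NeZero.ne s)).mp h3
          have h3 : f (τ z) * f z = 1 := by rw [← map_mul, hτ, map_one]
          have h4 : (starRingEnd ℂ) (f z) * f z = 1 := by
            rw [mul_comm, Complex.mul_conj, Complex.normSq_eq_norm_sq, hfz]
            simp
          have h5 : f z ≠ 0 := by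
            intro h
            rw [h, mul_zero] at h3
            exact zero_ne_one h3
          exact mul_right_cancel₀ h5 (h3.trans h4.symm)
        have h2 : f (τ x) = (starRingEnd ℂ) (f x) := by
          have := congrArg (fun g => g x) h1
          simpa using this
        have h3 : f x * (starRingEnd ℂ) (f x) = 1 := by
          rw [← h2, ← map_mul, hx, map_one]
        rw [Complex.mul_conj, Complex.normSq_eq_norm_sq] at h3
        have h4 : ‖f x‖ ^ 2 = 1 := by exact_mod_cast h3
        have h5 : ‖f x‖ = 1 := by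
          nlinarith [norm_nonneg (f x), sq_nonneg (‖f x‖ - 1)]
        exact h5)
    exact ⟨n, hn, hh⟩
  obtain ⟨k, hk⟩ := hK.exists_neg_pow_of_isOfFinOrder hodd hfin
  refine ⟨k, ?_⟩
  apply RingOfIntegers.coe_injective
  have : (x : K) = (((-z) ^ k : 𝓞 K) : K) := by
    rw [hk]
    simp
  exact this

end

end Pool.Agent.CAC67D
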