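import Pool.Agent.W_cac67d_h30.ModP

open NumberField Polynomial

namespace Pool.Agent.CAC67D

section

variable {s : ℕ} [hs : Fact s.Prime] {K : Type} [Field K] [NumberField K]
  [IsCyclotomicExtension {s} ℚ K]

omit [NumberField K] [IsCyclotomicExtension {s} ℚ K] in
/-- Comparison of the two reductions modulo `p`. -/
lemma compare {z : 𝓞 K} (hz : IsPrimitiveRoot z s) {p q k Q : ℕ} [hp : Fact p.Prime]
    (hps : p ≠ s) (hq : 1 < q) (hpq : p ∣ q ^ 2 - 1) {L : Type} [Field L] [CharP L p]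
    (ρ : 𝓞 K →+* L) {τ : 𝓞 K →+* 𝓞 K} (hτ : τ z * z = 1) {x : 𝓞 K} (hx1 : x * τ x = 1)
    (hk : x = (-z) ^ k)
    (h1 : ρ (x * ∏ a ∈ Finset.univ.erase (0 : ZMod s), pe z q a ^ cexp a) ^ Q = 1)
    (h2 : ρ (τ (x * ∏ a ∈ Finset.univ.erase (0 : ZMod s), pe z q a ^ cexp a)) ^ Q = 1) :
    (2 * (Q : ZMod s)) * (2 * (k : ZMod s) + 1) = 0 := by
  set w := ρ z with hw
  have hwp : IsPrimitiveRoot w s := rho_prim hz hps ρ
  set e : L := (q : L) with he
  have he2 : e * e = 1 := by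
    obtain ⟨c, hc⟩ := hpq
    have h3 : q ^ 2 = p * c + 1 := by
      have : 1 ≤ q ^ 2 := Nat.one_le_pow _ _ (by omega)
      omega
    have h4 : ((q ^ 2 : ℕ) : L) = ((p * c + 1 : ℕ) : L) := by rw [h3]
    rw [Nat.cast_pow, Nat.cast_add, Nat.cast_mul, CharP.cast_eq_zero L p, zero_mul, zero_add,
      Nat.cast_one] at h4
    rw [he, ← sq]
    exact h4
  have hρpe : ∀ a : ZMod s, ρ (pe z q a) = (-e * w ^ a.val) * ρ (τ (pe z q a)) := by
    intro a
    rw [conj_pe hz hτ, pe, pe, map_sub, map_sub, map_natCast, map_pow, map_pow]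
    have h5 := pow_val_neg hwp.pow_eq_one a
    have h6 : (-e * w ^ a.val) * (e - w ^ (-a).val) =
        -(e * e) * w ^ a.val + e * (w ^ (-a).val * w ^ a.val) := by ring
    rw [← he, ← hw, h6, he2, h5]
    ring
  -- the comparison
  set S := ∑ a ∈ Finset.univ.erase (0 : ZMod s), a.val * cexp a with hS
  have hprod : ρ (∏ a ∈ Finset.univ.erase (0 : ZMod s), pe z q a ^ cexp a) =
      (∏ a ∈ Finset.univ.erase (0 : ZMod s), (-e * w ^ a.val) ^ cexp a) *
        ρ (τ (∏ a ∈ Finset.univ.erase (0 : ZMod s), pe z q a ^ cexp a)) := by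
    rw [map_prod, map_prod, map_prod, ← Finset.prod_mul_distrib]
    refine Finset.prod_congr rfl ?_
    intro a _
    rw [map_pow, map_pow, map_pow, hρpe, mul_pow]
  set E := ∏ a ∈ Finset.univ.erase (0 : ZMod s), (-e * w ^ a.val) ^ cexp a with hE
  have hE2 : E ^ 2 = w ^ (2 * S) := by
    rw [hE, ← Finset.prod_pow, hS, Finset.mul_sum, ← Finset.prod_pow_eq_pow_sum]
    refine Finset.prod_congr rfl ?_
    intro a _
    have h3 : (-e * w ^ a.val) ^ 2 = w ^ (2 * a.val) := by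
      calc (-e * w ^ a.val) ^ 2 = (e * e) * (w ^ a.val) ^ 2 := by ring
        _ = w ^ (2 * a.val) := by
            rw [he2, one_mul, ← pow_mul, mul_comm]
    rw [← pow_mul, mul_comm (cexp a) 2, pow_mul, h3, ← pow_mul, mul_assoc]
  set PP := ∏ a ∈ Finset.univ.erase (0 : ZMod s), pe z q a ^ cexp a with hPP
  have h3 : (ρ x * (E * ρ (τ PP))) ^ Q = 1 := by
    rw [← hprod, ← map_mul]
    exact h1
  have h4 : (ρ (τ x) * ρ (τ PP)) ^ Q = 1 := by
    rw [← map_mul, ← map_mul]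
    exact h2
  have h5 : ρ x * ρ (τ x) = 1 := by rw [← map_mul, hx1, map_one]
  have h6 : (ρ x ^ 2 * E) ^ Q = 1 := by
    have e1 : (ρ x ^ 2 * E) ^ Q * (ρ (τ x) * ρ (τ PP)) ^ Q =
        (ρ x * (E * ρ (τ PP))) ^ Q * (ρ x * ρ (τ x)) ^ Q := by
      rw [← mul_pow, ← mul_pow]
      congr 1
      ring
    rw [h3, h4, h5, one_pow, mul_one, mul_one] at e1
    exact e1
  have h7 : w ^ (2 * Q * (2 * k + S)) = 1 := by
    have e1 : ((ρ x ^ 2 * E) ^ Q) ^ 2 = w ^ (2 * Q * (2 * k + S)) := by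
      have e2 : ρ x ^ 4 = w ^ (4 * k) := by
        rw [hk, map_pow, map_neg, ← hw, ← pow_mul, mul_comm k 4, pow_mul, pow_mul]
        congr 1
        ring
      calc ((ρ x ^ 2 * E) ^ Q) ^ 2 = (ρ x ^ 4 * E ^ 2) ^ Q := by
            rw [← pow_mul, mul_comm Q 2, pow_mul]
            congr 1
            ring
        _ = (w ^ (4 * k) * w ^ (2 * S)) ^ Q := by rw [e2, hE2]
        _ = w ^ (2 * Q * (2 * k + S)) := by
            rw [← pow_add, ← pow_mul]
            congr 1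
            ring
    rw [← e1, h6, one_pow]
  have h8 : ((2 * Q * (2 * k + S) : ℕ) : ZMod s) = 0 := by
    rw [ZMod.natCast_eq_zero_iff]
    exact hwp.dvd_of_pow_eq_one _ h7
  have hS1 : (S : ZMod s) = 1 := by
    rw [hS]
    push_cast
    rw [← sum_cexp (s := s)]
    refine Finset.sum_congr rfl ?_
    intro a _
    rw [ZMod.natCast_zmod_val]
  push_cast at h8
  rw [hS1] at h8
  exact h8

end

/-- Core computation: `p` divides `q ^ 2 - 1` and is an `s`-th power residue modulo the prime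
`N = 1 + q + ... + q ^ (s - 1)`. -/
theorem core {s p q N : ℕ} (hs : s.Prime) (hs2 : s ≠ 2) (hp : p.Prime) (hNp : N.Prime)
    (hq : 1 < q) (hN : N = ∑ i ∈ Finset.range s, q ^ i) (hps : p ≠ s)
    (hpq : p ∣ q ^ 2 - 1) (hres : ∃ y : ZMod N, y ^ s = (p : ZMod N)) :
    s ^ 2 ∣ p ^ (s - 1) - 1 ∨ s ∣ q + 1 := by
  have fs : Fact s.Prime := ⟨hs⟩
  have fp : Fact p.Prime := ⟨hp⟩
  have fN : Fact N.Prime := ⟨hNp⟩
  have hs3 : 3 ≤ s := by
    have := hs.two_le
    omega
  -- sizes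
  have hN3 : 1 + q + q ^ 2 ≤ N := by
    rw [hN]
    calc 1 + q + q ^ 2 = ∑ i ∈ Finset.range 3, q ^ i := by
          simp [Finset.sum_range_succ]
      _ ≤ ∑ i ∈ Finset.range s, q ^ i :=
          Finset.sum_le_sum_of_subset (Finset.range_mono hs3)
  have hsN : s < N := by
    rw [hN]
    calc s = ∑ i ∈ Finset.range s, 1 := by simp
      _ < ∑ i ∈ Finset.range s, q ^ i := by
          refine Finset.sum_lt_sum (fun i _ => Nat.one_le_pow _ _ (by omega)) ⟨1, ?_, ?_⟩
          · rw [Finset.mem_range]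
            omega
          · rw [pow_one]
            exact hq
  have hpN : p ≠ N := by
    rintro rfl
    have h1 : 0 < q ^ 2 - 1 := by
      have : 4 ≤ q ^ 2 := by nlinarith
      omega
    have := Nat.le_of_dvd h1 hpq
    omega
  obtain ⟨m, hm⟩ : ∃ m, N - 1 = s * m := by
    have h1 := q_prim hN hsN
    have hq0 : (q : ZMod N) ≠ 0 := h1.ne_zero (by omega)
    have h2 : (q : ZMod N) ^ (N - 1) = 1 := ZMod.pow_card_sub_one_eq_one hq0
    exact h1.dvd_of_pow_eq_one _ h2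
  obtain ⟨Q, hQ⟩ : ∃ Q, p ^ (s - 1) - 1 = s * Q := by
    have h1 : (p : ZMod s) ≠ 0 := by
      intro h
      rw [ZMod.natCast_eq_zero_iff] at h
      exact hps ((Nat.prime_dvd_prime_iff_eq hs hp).mp h).symm
    have h2 := ZMod.pow_card_sub_one_eq_one h1
    have h3 : ((p ^ (s - 1) - 1 : ℕ) : ZMod s) = 0 := by
      rw [Nat.cast_sub (Nat.one_le_pow _ _ hp.pos)]
      push_cast
      rw [h2, sub_self]
    rw [ZMod.natCast_eq_zero_iff] at h3
    exact h3
  -- the cyclotomic ring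
  have hcyc : IsCyclotomicExtension {s} ℚ (CyclotomicField s ℚ) :=
    CyclotomicField.isCyclotomicExtension s ℚ
  set z : 𝓞 (CyclotomicField s ℚ) :=
    (IsCyclotomicExtension.zeta_spec s ℚ (CyclotomicField s ℚ)).toInteger with hzdef
  have hz : IsPrimitiveRoot z s :=
    (IsCyclotomicExtension.zeta_spec s ℚ (CyclotomicField s ℚ)).toInteger_isPrimitiveRoot
  obtain ⟨f, hf⟩ := exists_lift_dom hz (q : ZMod N) (q_pow hN) (q_ne_one hN hsN (by omega))
  obtain ⟨χ, hχs, hχ1, hχ⟩ := exists_char hz hN hsN hm hf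
  obtain ⟨τ, hτ⟩ := exists_conj hz
  obtain ⟨x, hx1, hx2⟩ := main_product hz hq hN hsN hm hf hχs hχ1 hχ hτ
  obtain ⟨k, hk⟩ := root_of_unity hs2 hz τ hτ x hx1
  have hexp := exponent hs2 hz hN hm hχs k (by rw [hx2, hk])
  have hχp : χ (p : ZMod N) = 1 := by
    obtain ⟨y, hy⟩ := hres
    have hp0 : (p : ZMod N) ≠ 0 := by
      intro h
      rw [ZMod.natCast_eq_zero_iff] at h
      exact hpN ((Nat.prime_dvd_prime_iff_eq hNp hp).mp h).symm
    have hy0 : y ≠ 0 := by
      rintro rfl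
      rw [zero_pow (by omega)] at hy
      exact hp0 hy.symm
    rw [← hy, map_pow, ← MulChar.pow_apply' _ (by omega : s ≠ 0), hχs]
    exact MulChar.one_apply (isUnit_iff_ne_zero.mpr hy0)
  -- reduction modulo `p`
  have hch : CharP (AlgebraicClosure (ZMod p)) p :=
    charP_of_injective_algebraMap (algebraMap (ZMod p) (AlgebraicClosure (ZMod p))).injective p
  have hsL : (s : AlgebraicClosure (ZMod p)) ≠ 0 := by
    intro h
    rw [CharP.cast_eq_zero_iff (AlgebraicClosure (ZMod p)) p] at h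
    exact hps ((Nat.prime_dvd_prime_iff_eq hp hs).mp h)
  have hne : NeZero (s : AlgebraicClosure (ZMod p)) := ⟨hsL⟩
  obtain ⟨w0, hw0⟩ := HasEnoughRootsOfUnity.exists_primitiveRoot (AlgebraicClosure (ZMod p)) s
  obtain ⟨ρ, hρ⟩ := exists_lift_dom hz w0 hw0.pow_eq_one (hw0.ne_one hs.one_lt)
  have h1 := modp_power hs2 hz hps hpN hχs hχ1 hχp ρ hQ
  have h2 := modp_power hs2 hz hps hpN hχs hχ1 hχp (ρ.comp τ) hQ
  rw [hx2] at h1 h2
  have h8 := compare hz hps hq hpq ρ hτ hx1 hk h1 h2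
  have h20 : (2 : ZMod s) ≠ 0 := by
    intro h
    have h6 : ((2 : ℕ) : ZMod s) = 0 := by exact_mod_cast h
    rw [ZMod.natCast_eq_zero_iff] at h6
    have := Nat.le_of_dvd (by norm_num) h6
    omega
  rcases mul_eq_zero.mp h8 with h9 | h9
  · left
    have h10 := (mul_eq_zero.mp h9).resolve_left h20
    rw [ZMod.natCast_eq_zero_iff] at h10
    obtain ⟨c, hc⟩ := h10
    rw [hQ, hc]
    exact ⟨c, by ring⟩
  · right
    have h10 : ((q + 1 : ℕ) : ZMod s) = 0 := by
      push_cast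
      calc (q : ZMod s) + 1 = 2 * ((k : ZMod s) * ((q : ZMod s) - 1)) + ((q : ZMod s) - 1) := by
            rw [hexp]
            ring
        _ = (2 * (k : ZMod s) + 1) * ((q : ZMod s) - 1) := by ring
        _ = 0 := by rw [h9, zero_mul]
    rw [ZMod.natCast_eq_zero_iff] at h10
    exact h10

end Pool.Agent.CAC67D
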