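import Pool.Agent.W_cac67d_h30.Core

namespace Pool.Agent.CAC67D

lemma geom_nat (q s : ℕ) (hq : 1 < q) : (q ^ s - 1) / (q - 1) = ∑ i ∈ Finset.range s, q ^ i :=
  (Nat.geomSum_eq hq s).symm

/-- If `1 + q + ... + q ^ (s - 1)` is prime then `s` is prime. -/
lemma exp_prime {q s N : ℕ} (hq : 1 < q) (hs : 3 ≤ s) (hN : N = ∑ i ∈ Finset.range s, q ^ i)
    (hNp : N.Prime) : s.Prime := by
  by_contra hc
  obtain ⟨a, b, ha, hb, hab⟩ : ∃ a b, 2 ≤ a ∧ 2 ≤ b ∧ s = a * b := by
    obtain ⟨a, ha, ha1, ha2⟩ := Nat.exists_dvd_of_not_prime2 (by omega) hc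
    obtain ⟨b, hb⟩ := ha
    refine ⟨a, b, ha1, ?_, hb⟩
    by_contra hb2
    have : b = 0 ∨ b = 1 := by omega
    rcases this with h | h <;> rw [h] at hb <;> omega
  have h1 : N = (∑ i ∈ Finset.range a, q ^ i) * ∑ i ∈ Finset.range b, (q ^ a) ^ i := by
    have h2 : (∑ i ∈ Finset.range s, (q : ℤ) ^ i) =
        (∑ i ∈ Finset.range a, (q : ℤ) ^ i) * ∑ i ∈ Finset.range b, ((q : ℤ) ^ a) ^ i := by
      have h3 := geom_sum_mul (q : ℤ) s
      have h4 := geom_sum_mul (q : ℤ) a
      have h5 := geom_sum_mul ((q : ℤ) ^ a) b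
      have h6 : (q : ℤ) - 1 ≠ 0 := by
        have : (1 : ℤ) < q := by exact_mod_cast hq
        omega
      apply mul_right_cancel₀ h6
      rw [h3, hab, pow_mul, ← h5, ← h4]
      ring
    rw [hN]
    exact_mod_cast h2
  have hge : ∀ c d : ℕ, 2 ≤ c → 1 < d → 1 < ∑ i ∈ Finset.range c, d ^ i := by
    intro c d hc hd
    calc 1 < 1 + d := by omega
      _ = ∑ i ∈ Finset.range 2, d ^ i := by simp [Finset.sum_range_succ]
      _ ≤ ∑ i ∈ Finset.range c, d ^ i := Finset.sum_le_sum_of_subset (Finset.range_mono hc)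
  have h7 := hge a q ha hq
  have h8 := hge b (q ^ a) hb (Nat.one_lt_pow (by omega) hq)
  rw [h1] at hNp
  exact Nat.not_prime_mul (by omega) (by omega) hNp

theorem final : ∀ p q r s N : ℕ, p.Prime → q.Prime → N.Prime → 3 ≤ r → 3 ≤ s →
    (p, r) ≠ (q, s) → N = (p ^ r - 1) / (p - 1) → N = (q ^ s - 1) / (q - 1) →
    (p ∣ q ^ 2 - 1 ∨ Nat.gcd (p - 1) (s - 1) ∣ 2) →
    s ∣ q + 1 ∨ s ^ 2 ∣ p ^ (s - 1) - 1 := by
  intro p q r s N hp hq hNp hr hs hne hNr hNs hcond
  rw [geom_nat p r hp.one_lt] at hNr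
  rw [geom_nat q s hq.one_lt] at hNs
  have hsp : s.Prime := exp_prime hq.one_lt hs hNs hNp
  have hrp : r.Prime := exp_prime hp.one_lt hr hNr hNp
  have hs2 : s ≠ 2 := by omega
  -- `p ≠ q`
  have hmono : ∀ c a b : ℕ, 1 < c → a < b →
      ∑ i ∈ Finset.range a, c ^ i < ∑ i ∈ Finset.range b, c ^ i := by
    intro c a b hc hab
    refine Finset.sum_lt_sum_of_subset (i := a) (Finset.range_mono hab.le) ?_ ?_ ?_ ?_
    · exact Finset.mem_range.mpr hab
    · simp
    · positivity
    · intro j _ _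
      exact Nat.zero_le _
  have hpq : p ≠ q := by
    rintro rfl
    rcases lt_trichotomy r s with h | h | h
    · have := hmono p r s hp.one_lt h
      omega
    · exact hne (by rw [h])
    · have := hmono p s r hp.one_lt h
      omega
  -- `r ≠ s`
  have hrs : r ≠ s := by
    rintro rfl
    rcases lt_or_gt_of_ne hpq with h | h
    · have : ∑ i ∈ Finset.range r, p ^ i < ∑ i ∈ Finset.range r, q ^ i := by
        refine Finset.sum_lt_sum (fun i _ => Nat.pow_le_pow_left h.le i) ⟨1, ?_, by simpa using h⟩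
        exact Finset.mem_range.mpr (by omega)
      omega
    · have : ∑ i ∈ Finset.range r, q ^ i < ∑ i ∈ Finset.range r, p ^ i := by
        refine Finset.sum_lt_sum (fun i _ => Nat.pow_le_pow_left h.le i) ⟨1, ?_, by simpa using h⟩
        exact Finset.mem_range.mpr (by omega)
      omega
  -- divisibility of `q ^ 2 - 1`
  have hN1 : ∀ c t : ℕ, 3 ≤ t → N = ∑ i ∈ Finset.range t, c ^ i → c ∣ N - 1 := by
    intro c t ht h
    have h1 : ∑ i ∈ Finset.range t, c ^ i = c * (∑ i ∈ Finset.range (t - 1), c ^ i) + 1 := by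
      obtain ⟨t, rfl⟩ : ∃ t', t = t' + 1 := ⟨t - 1, by omega⟩
      rw [Finset.sum_range_succ', Finset.mul_sum]
      simp [pow_succ']
    rw [h, h1, Nat.add_sub_cancel]
    exact Dvd.intro _ rfl
  have hpq2 : p ∣ q ^ 2 - 1 := by
    rcases hcond with h | h
    · exact h
    · have fp : Fact p.Prime := ⟨hp⟩
      have hq0 : (q : ZMod p) ≠ 0 := by
        intro h0
        rw [ZMod.natCast_eq_zero_iff] at h0
        exact hpq ((Nat.prime_dvd_prime_iff_eq hp hq).mp h0)
      have h1 : (q : ZMod p) ^ (p - 1) = 1 := ZMod.pow_card_sub_one_eq_one hq0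
      have h2 : (q : ZMod p) ^ (s - 1) = 1 := by
        have h3 := hN1 p r hr hNr
        have h4 : N - 1 = q * ∑ i ∈ Finset.range (s - 1), q ^ i := by
          obtain ⟨t, rfl⟩ : ∃ t', s = t' + 1 := ⟨s - 1, by omega⟩
          rw [hNs, Finset.sum_range_succ', Finset.mul_sum]
          simp [pow_succ']
        rw [h4] at h3
        have h5 := (hp.dvd_mul.mp h3).resolve_left
          (fun h0 => hpq ((Nat.prime_dvd_prime_iff_eq hp hq).mp h0))
        have h6 : ((∑ i ∈ Finset.range (s - 1), q ^ i : ℕ) : ZMod p) = 0 :=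
          (ZMod.natCast_eq_zero_iff _ _).mpr h5
        push_cast at h6
        have h7 := geom_sum_mul (q : ZMod p) (s - 1)
        rw [h6, zero_mul] at h7
        exact (sub_eq_zero.mp h7.symm)
      have h3 : (q : ZMod p) ^ 2 = 1 := by
        have h4 : orderOf (q : ZMod p) ∣ Nat.gcd (p - 1) (s - 1) :=
          Nat.dvd_gcd (orderOf_dvd_of_pow_eq_one h1) (orderOf_dvd_of_pow_eq_one h2)
        exact orderOf_dvd_iff_pow_eq_one.mp (h4.trans h)
      rw [← ZMod.natCast_eq_zero_iff, Nat.cast_sub (Nat.one_le_pow _ _ hq.pos)]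
      push_cast
      rw [h3, sub_self]
  by_cases hps : p = s
  · -- the case `p = s`
    left
    rw [← hps]
    have h1 : p ∣ (q - 1) * (q + 1) := by
      have : q ^ 2 - 1 = (q - 1) * (q + 1) := by
        obtain ⟨c, rfl⟩ : ∃ c, q = c + 1 := ⟨q - 1, by have := hq.pos; omega⟩
        have e1 : (c + 1) ^ 2 = (c + 1 - 1) * (c + 1 + 1) + 1 := by
          rw [Nat.add_sub_cancel]
          ring
        rw [e1, Nat.add_sub_cancel]
      rw [← this]
      exact hpq2
    rcases hp.dvd_mul.mp h1 with h2 | h2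
    · exfalso
      -- then `N = s` modulo `p`, so `p ∣ N`
      have h3 : ((N : ℕ) : ZMod p) = 0 := by
        have h4 : (q : ZMod p) = 1 := by
          rw [← ZMod.natCast_eq_zero_iff, Nat.cast_sub hq.one_lt.le] at h2
          push_cast at h2
          exact sub_eq_zero.mp h2
        rw [hNs]
        push_cast
        rw [h4]
        simp [← hps]
      rw [ZMod.natCast_eq_zero_iff] at h3
      have h5 := (Nat.prime_dvd_prime_iff_eq hp hNp).mp h3
      have h6 := hmono p 2 r hp.one_lt (by omega)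
      rw [← hNr] at h6
      simp [Finset.sum_range_succ] at h6
      omega
    · exact h2
  · have hres : ∃ y : ZMod N, y ^ s = (p : ZMod N) := by
      have fN : Fact N.Prime := ⟨hNp⟩
      have h1 : (p : ZMod N) ^ r = 1 := q_pow hNr
      have hcop : Nat.Coprime s r := (Nat.coprime_primes hsp hrp).mpr (Ne.symm hrs)
      have hp0 : (p : ZMod N) ≠ 0 := by
        intro h0
        rw [h0, zero_pow (by omega)] at h1
        exact zero_ne_one h1
      obtain ⟨c, -, hc⟩ := Nat.exists_mul_mod_eq_one_of_coprime hcop (by omega)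
      refine ⟨(p : ZMod N) ^ c, ?_⟩
      rw [← pow_mul, mul_comm]
      conv_rhs => rw [← pow_one (p : ZMod N)]
      rw [pow_eq_pow_mod (s * c) h1, hc]
    exact (core hsp hs2 hp hNp hq.one_lt hNs hps hpq2 hres).symm

end Pool.Agent.CAC67D
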