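import Pool.Agent.W_cac67d_h30.Primes

open NumberField Polynomial

namespace Pool.Agent.CAC67D

section

variable {N : ℕ} [hNp : Fact N.Prime]

lemma sum_pow_mul_pow (u v : ℕ) (h : u + v < N - 1) :
    ∑ x : ZMod N, x ^ u * (1 - x) ^ v = 0 := by
  classical
  set P : (ZMod N)[X] := X ^ u * (1 - X) ^ v with hP
  have hdeg : P.natDegree < N - 1 := by
    refine lt_of_le_of_lt ?_ h
    refine natDegree_mul_le.trans ?_
    refine Nat.add_le_add (natDegree_X_pow_le u) ?_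
    refine natDegree_pow_le.trans ?_
    have h1 : (1 - X : (ZMod N)[X]).natDegree ≤ 1 := by
      refine (natDegree_sub_le _ _).trans ?_
      simp
    calc v * (1 - X : (ZMod N)[X]).natDegree ≤ v * 1 := Nat.mul_le_mul_left v h1
      _ = v := mul_one v
  have h1 : ∀ x : ZMod N, x ^ u * (1 - x) ^ v = ∑ i ∈ Finset.range (N - 1), P.coeff i * x ^ i := by
    intro x
    rw [← eval_eq_sum_range' hdeg x, hP]
    simp
  simp_rw [h1]
  rw [Finset.sum_comm]
  refine Finset.sum_eq_zero ?_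
  intro i hi
  rw [← Finset.mul_sum]
  have h2 : ∑ x : ZMod N, x ^ i = 0 := by
    apply FiniteField.sum_pow_lt_card_sub_one
    rw [ZMod.card]
    exact Finset.mem_range.mp hi
  rw [h2, mul_zero]

end

section

variable {s : ℕ} [hs : Fact s.Prime] {K : Type} [Field K] [NumberField K]
  [IsCyclotomicExtension {s} ℚ K] {N : ℕ} [hNp : Fact N.Prime]

omit [NumberField K] [IsCyclotomicExtension {s} ℚ K] in
lemma exists_char {z : 𝓞 K} (hz : IsPrimitiveRoot z s) {q : ℕ}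
    (hN : N = ∑ i ∈ Finset.range s, q ^ i) (hsN : s < N) {m : ℕ} (hm : N - 1 = s * m)
    {f : 𝓞 K →+* ZMod N} (hf : f z = (q : ZMod N)) :
    ∃ χ : MulChar (ZMod N) (𝓞 K), χ ^ s = 1 ∧ χ ≠ 1 ∧ ∀ x, f (χ x) = x ^ m := by
  classical
  have hN1 : 1 < N := hNp.out.one_lt
  have hmpos : 0 < m := by
    rcases Nat.eq_zero_or_pos m with h | h
    · rw [h, mul_zero] at hm
      omega
    · exact h
  have hmlt : m < N - 1 := by
    rw [hm]
    have := hs.out.one_lt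
    nlinarith
  have hp := q_prim hN hsN
  obtain ⟨g, hg⟩ := IsCyclic.exists_generator (α := (ZMod N)ˣ)
  have hcard : Fintype.card (ZMod N)ˣ = s * m := by rw [ZMod.card_units, hm]
  have h1 : ((g ^ m : (ZMod N)ˣ) : ZMod N) ^ s = 1 := by
    rw [← Units.val_pow_eq_pow_val, ← pow_mul, mul_comm, ← hcard, pow_card_eq_one, Units.val_one]
  obtain ⟨i, hi, hqi⟩ := hp.eq_pow_of_pow_eq_one h1
  have hzu : IsUnit z := hz.isUnit (NeZero.ne s)
  set zu : (𝓞 K)ˣ := hzu.unit with hzu'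
  have hzus : zu ^ s = 1 := by
    apply Units.ext
    rw [Units.val_pow_eq_pow_val, IsUnit.unit_spec, hz.pow_eq_one, Units.val_one]
  have hμ : zu ^ i ∈ rootsOfUnity (Fintype.card (ZMod N)ˣ) (𝓞 K) := by
    rw [mem_rootsOfUnity, hcard, ← pow_mul, mul_comm, mul_assoc, pow_mul, hzus, one_pow]
  set χ := MulChar.ofRootOfUnity hμ hg with hχ
  have hχg : χ (g : ZMod N) = z ^ i := by
    rw [hχ, MulChar.ofRootOfUnity_spec, Units.val_pow_eq_pow_val, IsUnit.unit_spec]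
  have hx : ∀ x : (ZMod N)ˣ, ∃ n : ℕ, (x : ZMod N) = (g : ZMod N) ^ n := by
    intro x
    have := hg x
    rw [← mem_powers_iff_mem_zpowers] at this
    obtain ⟨n, hn⟩ := this
    refine ⟨n, ?_⟩
    rw [← hn]
    simp
  refine ⟨χ, ?_, ?_, ?_⟩
  · apply MulChar.ext
    intro x
    obtain ⟨n, hn⟩ := hx x
    rw [MulChar.pow_apply' _ (NeZero.ne s), MulChar.one_apply_coe, hn, map_pow, hχg]
    calc ((z ^ i) ^ n) ^ s = (z ^ s) ^ (i * n) := by ring
      _ = 1 := by rw [hz.pow_eq_one, one_pow]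
  · intro h
    have h2 : χ (g : ZMod N) = 1 := by rw [h, MulChar.one_apply_coe]
    have h3 : f (χ (g : ZMod N)) = ((g ^ m : (ZMod N)ˣ) : ZMod N) := by
      rw [hχg, map_pow, hf, hqi]
    rw [h2, map_one] at h3
    have h4 : g ^ m = 1 := by
      apply Units.ext
      rw [← h3, Units.val_one]
    have h5 := orderOf_dvd_of_pow_eq_one h4
    rw [orderOf_eq_card_of_forall_mem_zpowers hg, Nat.card_eq_fintype_card, ZMod.card_units] at h5
    have h6 := Nat.le_of_dvd hmpos h5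
    omega
  · intro x
    by_cases hx0 : x = 0
    · rw [hx0, MulChar.map_zero, map_zero, zero_pow hmpos.ne']
    · obtain ⟨n, hn⟩ := hx (Units.mk0 x hx0)
      have hn' : x = (g : ZMod N) ^ n := hn
      rw [hn', map_pow, hχg, map_pow, map_pow, hf, hqi, Units.val_pow_eq_pow_val]
      rw [← pow_mul, ← pow_mul, mul_comm]

omit [NumberField K] [IsCyclotomicExtension {s} ℚ K] in
lemma red_char {z : 𝓞 K} (hz : IsPrimitiveRoot z s) {q : ℕ} {m : ℕ} (hm : N - 1 = s * m)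
    {f : 𝓞 K →+* ZMod N} (hf : f z = (q : ZMod N)) {χ : MulChar (ZMod N) (𝓞 K)}
    (hχs : χ ^ s = 1) (hχ : ∀ x, f (χ x) = x ^ m)
    {a : ZMod s} (ha : a ≠ 0)
    {fa : 𝓞 K →+* ZMod N} (hfa : fa z = (q : ZMod N) ^ (a⁻¹).val) (x : ZMod N) :
    fa (χ x) = x ^ (m * (a⁻¹).val) := by
  have hN1 : 1 < N := hNp.out.one_lt
  have hmpos : 0 < m := by
    rcases Nat.eq_zero_or_pos m with h | h
    · rw [h, mul_zero] at hm
      omega
    · exact h
  have hbpos : (a⁻¹).val ≠ 0 := by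
    intro h
    rw [ZMod.val_eq_zero] at h
    exact ha (inv_eq_zero.mp h)
  by_cases hx : x = 0
  · rw [hx, MulChar.map_zero, map_zero, zero_pow (Nat.mul_ne_zero hmpos.ne' hbpos)]
  · obtain ⟨k, hk, hk2⟩ := MulChar.exists_apply_eq_pow hχs hz hx
    have h1 := hχ x
    rw [hk2, map_pow, hf] at h1
    rw [hk2, map_pow, hfa, pow_mul, ← h1, ← pow_mul, ← pow_mul, mul_comm]

lemma pow_exp_congr {m : ℕ} (hm : N - 1 = s * m) (y : ZMod N) (u v : ℕ)
    (hu : (u : ZMod s) ≠ 0) (huv : (u : ZMod s) = v) : y ^ (m * u) = y ^ (m * v) := by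
  have hN1 : 1 < N := hNp.out.one_lt
  have hmpos : m ≠ 0 := by
    intro h
    rw [h, mul_zero] at hm
    omega
  by_cases hy : y = 0
  · have h1 : u ≠ 0 := by
      rintro rfl
      simp at hu
    have h2 : v ≠ 0 := by
      rintro rfl
      rw [huv] at hu
      simp at hu
    rw [hy, zero_pow (Nat.mul_ne_zero hmpos h1), zero_pow (Nat.mul_ne_zero hmpos h2)]
  · have h1 : (y ^ m) ^ s = 1 := by
      rw [← pow_mul, mul_comm, ← hm]
      exact ZMod.pow_card_sub_one_eq_one hy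
    rw [pow_mul, pow_mul]
    exact pow_eq_of_cast_eq h1 u v huv

omit [NumberField K] [IsCyclotomicExtension {s} ℚ K] in
lemma red_jacobi {z : 𝓞 K} (hz : IsPrimitiveRoot z s) {q : ℕ} {m : ℕ} (hm : N - 1 = s * m)
    {f : 𝓞 K →+* ZMod N} (hf : f z = (q : ZMod N)) {χ : MulChar (ZMod N) (𝓞 K)}
    (hχs : χ ^ s = 1) (hχ : ∀ x, f (χ x) = x ^ m)
    {a : ZMod s} (ha : a ≠ 0)
    {fa : 𝓞 K →+* ZMod N} (hfa : fa z = (q : ZMod N) ^ (a⁻¹).val)
    (j : ℕ) (hj : (j : ZMod s) ≠ 0) (hlt : (a⁻¹).val + (a⁻¹ * j).val < s) :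
    fa (jacobiSum χ (χ ^ j)) = 0 := by
  have hN1 : 1 < N := hNp.out.one_lt
  have hmpos : 0 < m := by
    rcases Nat.eq_zero_or_pos m with h | h
    · rw [h, mul_zero] at hm
      omega
    · exact h
  have hj0 : j ≠ 0 := by
    rintro rfl
    simp at hj
  rw [jacobiSum, map_sum]
  have h1 : ∀ x : ZMod N, fa (χ x * (χ ^ j) (1 - x)) =
      x ^ (m * (a⁻¹).val) * (1 - x) ^ (m * (a⁻¹ * j).val) := by
    intro x
    rw [map_mul, red_char hz hm hf hχs hχ ha hfa, MulChar.pow_apply' _ hj0, map_pow,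
      red_char hz hm hf hχs hχ ha hfa, ← pow_mul, mul_assoc]
    congr 1
    apply pow_exp_congr (s := s) hm
    · rw [Nat.cast_mul, ZMod.natCast_zmod_val]
      exact mul_ne_zero (inv_ne_zero ha) hj
    · rw [Nat.cast_mul, ZMod.natCast_zmod_val, ZMod.natCast_zmod_val]
  simp_rw [h1]
  apply sum_pow_mul_pow
  rw [← Nat.mul_add, hm, mul_comm s m]
  exact Nat.mul_lt_mul_of_pos_left hlt hmpos

/-- The complex conjugation of the cyclotomic ring. -/
lemma exists_conj {z : 𝓞 K} (hz : IsPrimitiveRoot z s) :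
    ∃ τ : 𝓞 K →+* 𝓞 K, τ z * z = 1 := by
  have h2 := hs.out.two_le
  obtain ⟨τ, hτ⟩ := exists_lift_dom hz (z ^ (s - 1)) (by
    rw [← pow_mul, mul_comm, pow_mul, hz.pow_eq_one, one_pow]) (by
    intro h
    have := hz.dvd_of_pow_eq_one (s - 1) h
    have := Nat.le_of_dvd (by omega) this
    omega)
  refine ⟨τ, ?_⟩
  rw [hτ, ← pow_succ, Nat.sub_add_cancel (by omega), hz.pow_eq_one]

omit [NumberField K] [IsCyclotomicExtension {s} ℚ K] in
lemma conj_char {z : 𝓞 K} (hz : IsPrimitiveRoot z s) {τ : 𝓞 K →+* 𝓞 K} (hτ : τ z * z = 1)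
    {χ : MulChar (ZMod N) (𝓞 K)} (hχs : χ ^ s = 1) : χ.ringHomComp τ = χ⁻¹ := by
  rw [eq_inv_iff_mul_eq_one]
  apply MulChar.ext
  intro x
  rw [MulChar.mul_apply, MulChar.ringHomComp_apply, MulChar.one_apply_coe]
  obtain ⟨k, _, hk2⟩ := MulChar.exists_apply_eq_pow hχs hz (a := (x : ZMod N)) x.ne_zero
  rw [hk2, map_pow, ← mul_pow, hτ, one_pow]

omit [NumberField K] [IsCyclotomicExtension {s} ℚ K] in
lemma conj_jacobi {z : 𝓞 K} (hz : IsPrimitiveRoot z s) {τ : 𝓞 K →+* 𝓞 K} (hτ : τ z * z = 1)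
    {χ : MulChar (ZMod N) (𝓞 K)} (hχs : χ ^ s = 1) (j : ℕ) :
    τ (jacobiSum χ (χ ^ j)) = jacobiSum χ⁻¹ (χ ^ j)⁻¹ := by
  rw [← jacobiSum_ringHomComp, conj_char hz hτ hχs, conj_char hz hτ]
  rw [← pow_mul, mul_comm, pow_mul, hχs, one_pow]

omit [IsCyclotomicExtension {s} ℚ K] in
lemma jacobi_norm {χ : MulChar (ZMod N) (𝓞 K)} (hχs : χ ^ s = 1) (hχ1 : χ ≠ 1) (j : ℕ)
    (hj : (j : ZMod s) ≠ 0) (hj1 : (j : ZMod s) + 1 ≠ 0) :
    jacobiSum χ (χ ^ j) * jacobiSum χ⁻¹ (χ ^ j)⁻¹ = N := by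
  have hord : orderOf χ = s := orderOf_eq_prime hχs hχ1
  have hinj := RingOfIntegers.coe_injective (K := K)
  have hj' : χ ^ j ≠ 1 := by
    intro h
    have := orderOf_dvd_of_pow_eq_one h
    rw [hord, ← ZMod.natCast_eq_zero_iff] at this
    exact hj this
  have hjj : χ * χ ^ j ≠ 1 := by
    rw [← pow_succ']
    intro h
    have := orderOf_dvd_of_pow_eq_one h
    rw [hord, ← ZMod.natCast_eq_zero_iff] at this
    push_cast at this
    exact hj1 this
  have h := jacobiSum_mul_jacobiSum_inv (F := ZMod N) (F' := K)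
    (χ := χ.ringHomComp (algebraMap (𝓞 K) K)) (φ := (χ ^ j).ringHomComp (algebraMap (𝓞 K) K))
    (by
      rw [ringChar.eq K 0, ringChar.eq (ZMod N) N]
      exact hNp.out.ne_zero.symm)
    ((MulChar.ringHomComp_ne_one_iff hinj).mpr hχ1)
    ((MulChar.ringHomComp_ne_one_iff hinj).mpr hj')
    (by
      rw [← MulChar.ringHomComp_mul]
      exact (MulChar.ringHomComp_ne_one_iff hinj).mpr hjj)
  rw [MulChar.ringHomComp_inv, MulChar.ringHomComp_inv, jacobiSum_ringHomComp,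
    jacobiSum_ringHomComp, ← map_mul, ZMod.card] at h
  apply hinj
  rw [h]
  simp

omit [NumberField K] [IsCyclotomicExtension {s} ℚ K] in
lemma conj_pe {z : 𝓞 K} (hz : IsPrimitiveRoot z s) {τ : 𝓞 K →+* 𝓞 K} (hτ : τ z * z = 1)
    (q : ℕ) (a : ZMod s) : τ (pe z q a) = pe z q (-a) := by
  rw [pe, pe, map_sub, map_natCast, map_pow]
  congr 1
  have h1 := pow_val_neg hz.pow_eq_one a
  have h2 : (τ z) ^ a.val * z ^ a.val = 1 := by rw [← mul_pow, hτ, one_pow]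
  have h3 : z ^ a.val ≠ 0 := by
    intro h
    rw [h, mul_zero] at h2
    exact zero_ne_one h2
  exact mul_right_cancel₀ h3 (h2.trans h1.symm)

/-- The set of exponents of the primes dividing the Jacobi sum. -/
def Aset (s : ℕ) [NeZero s] (j : ZMod s) : Finset (ZMod s) :=
  Finset.univ.filter (fun a => a ≠ 0 ∧ (a⁻¹).val + (a⁻¹ * j).val < s)

omit [NumberField K] [IsCyclotomicExtension {s} ℚ K] in
lemma mem_Aset (j a : ZMod s) : a ∈ Aset s j ↔ a ≠ 0 ∧ (a⁻¹).val + (a⁻¹ * j).val < s := by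
  simp [Aset]

lemma neg_mem_Aset {j a : ZMod s} (hj : j ≠ 0) (hj1 : j + 1 ≠ 0) (ha : a ≠ 0) :
    -a ∈ Aset s j ↔ a ∉ Aset s j := by
  rw [mem_Aset, mem_Aset]
  have hb : a⁻¹ ≠ 0 := inv_ne_zero ha
  have hc : a⁻¹ * j ≠ 0 := mul_ne_zero hb hj
  have h1 : (-a)⁻¹ = -a⁻¹ := by rw [inv_neg]
  have h2 : (-a)⁻¹ * j = -(a⁻¹ * j) := by rw [h1, neg_mul]
  rw [h2, h1, ZMod.neg_val, ZMod.neg_val, if_neg hb, if_neg hc]
  have hbl := ZMod.val_lt (a⁻¹)
  have hcl := ZMod.val_lt (a⁻¹ * j)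
  have hne : (a⁻¹).val + (a⁻¹ * j).val ≠ s := by
    intro h
    have h3 : (((a⁻¹).val + (a⁻¹ * j).val : ℕ) : ZMod s) = 0 := by
      rw [h]
      simp
    rw [Nat.cast_add, ZMod.natCast_zmod_val, ZMod.natCast_zmod_val] at h3
    have h4 : a⁻¹ * (j + 1) = 0 := by
      rw [← h3]
      ring
    exact mul_ne_zero hb hj1 h4
  constructor
  · rintro ⟨_, h⟩ ⟨_, h'⟩
    omega
  · intro h
    refine ⟨neg_ne_zero.mpr ha, ?_⟩
    have h3 : ¬ ((a⁻¹).val + (a⁻¹ * j).val < s) := fun h' => h ⟨ha, h'⟩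
    omega

omit [IsCyclotomicExtension {s} ℚ K] hNp in
lemma prod_Aset {z : 𝓞 K} (hz : IsPrimitiveRoot z s) {q : ℕ} (hq : 1 < q)
    (hN : N = ∑ i ∈ Finset.range s, q ^ i) {j : ZMod s} (hj : j ≠ 0) (hj1 : j + 1 ≠ 0) :
    (∏ a ∈ Aset s j, pe z q a) * ∏ a ∈ Aset s j, pe z q (-a) = N := by
  classical
  rw [← prod_pe hz hq hN]
  have h1 : ∏ a ∈ Aset s j, pe z q (-a) = ∏ a ∈ (Aset s j).image (fun a => -a), pe z q a := by
    rw [Finset.prod_image]
    intro a _ b _ hab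
    exact neg_injective hab
  have hdisj : Disjoint (Aset s j) ((Aset s j).image (fun a => -a)) := by
    rw [Finset.disjoint_left]
    intro a ha hb
    obtain ⟨c, hc, hca⟩ := Finset.mem_image.mp hb
    have hc0 := ((mem_Aset j c).mp hc).1
    have := (neg_mem_Aset hj hj1 hc0).mp (by rw [hca]; exact ha)
    exact this hc
  rw [h1, ← Finset.prod_union hdisj]
  congr 1
  ext a
  simp only [Finset.mem_union, Finset.mem_image, Finset.mem_erase, Finset.mem_univ, and_true]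
  constructor
  · rintro (h | ⟨c, hc, rfl⟩)
    · exact ((mem_Aset j a).mp h).1
    · exact neg_ne_zero.mpr ((mem_Aset j c).mp hc).1
  · intro ha
    by_cases h : a ∈ Aset s j
    · exact Or.inl h
    · right
      exact ⟨-a, (neg_mem_Aset hj hj1 ha).mpr h, neg_neg a⟩

/-- The factorization of the Jacobi sums. -/
lemma jacobi_factor {z : 𝓞 K} (hz : IsPrimitiveRoot z s) {q : ℕ} (hq : 1 < q)
    (hN : N = ∑ i ∈ Finset.range s, q ^ i) (hsN : s < N) {m : ℕ} (hm : N - 1 = s * m)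
    {f : 𝓞 K →+* ZMod N} (hf : f z = (q : ZMod N)) {χ : MulChar (ZMod N) (𝓞 K)}
    (hχs : χ ^ s = 1) (hχ1 : χ ≠ 1) (hχ : ∀ x, f (χ x) = x ^ m)
    {τ : 𝓞 K →+* 𝓞 K} (hτ : τ z * z = 1)
    (j : ℕ) (hj : (j : ZMod s) ≠ 0) (hj1 : (j : ZMod s) + 1 ≠ 0) :
    ∃ x : 𝓞 K, x * τ x = 1 ∧ jacobiSum χ (χ ^ j) = x * ∏ a ∈ Aset s j, pe z q a := by
  have hdvd : ∏ a ∈ Aset s (j : ZMod s), pe z q a ∣ jacobiSum χ (χ ^ j) := by
    apply prod_pe_dvd hz hq hN hsN
    · intro a ha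
      exact ((mem_Aset _ a).mp ha).1
    · intro a ha
      obtain ⟨ha0, ha2⟩ := (mem_Aset _ a).mp ha
      obtain ⟨fa, hfa⟩ := exists_red hz hN hsN a ha0
      rw [← red_zero_iff hz hq hN ha0 hfa]
      exact red_jacobi hz hm hf hχs hχ ha0 hfa j hj ha2
  obtain ⟨x, hx⟩ := hdvd
  refine ⟨x, ?_, by rw [hx, mul_comm]⟩
  have h1 := jacobi_norm hχs hχ1 j hj hj1
  rw [← conj_jacobi hz hτ hχs, hx, map_mul, map_prod] at h1
  simp_rw [conj_pe hz hτ] at h1
  have h2 := prod_Aset hz hq hN hj hj1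
  have h3 : ((∏ a ∈ Aset s (j : ZMod s), pe z q a) * ∏ a ∈ Aset s (j : ZMod s), pe z q (-a)) *
      (x * τ x) = N := by
    rw [← h1]
    ring
  rw [h2] at h3
  have hN0 : (N : 𝓞 K) ≠ 0 := by
    intro h
    have h5 : ((N : ℕ) : K) = 0 := by
      have := congrArg (algebraMap (𝓞 K) K) h
      simpa using this
    exact hNp.out.ne_zero (Nat.cast_eq_zero.mp h5)
  have h4 : (N : 𝓞 K) * (x * τ x) = N * 1 := by rw [h3, mul_one]
  exact mul_left_cancel₀ hN0 h4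

end

end Pool.Agent.CAC67D
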