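import Pool.Agent.W_cac67d_h30.Jac

open NumberField Polynomial

namespace Pool.Agent.CAC67D

section count

variable {s : ℕ} [hs : Fact s.Prime]

lemma count_Aset (a : ZMod s) (ha : a ≠ 0) :
    ((Finset.Ico 1 (s - 1)).filter (fun j : ℕ => a ∈ Aset s (j : ZMod s))).card
      = s - (a⁻¹).val - 1 := by
  classical
  set b := a⁻¹ with hb
  have hb0 : b ≠ 0 := inv_ne_zero ha
  have hbpos : 0 < b.val := by
    rcases Nat.eq_zero_or_pos b.val with h | h
    · exact absurd ((ZMod.val_eq_zero b).mp h) hb0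
    · exact h
  have hbl := ZMod.val_lt b
  have h2 := hs.out.two_le
  have hcard : (Finset.Ico 1 (s - b.val)).card = s - b.val - 1 := Nat.card_Ico _ _
  rw [← hcard]
  have hjne : ∀ j : ℕ, 1 ≤ j → j < s → (j : ZMod s) ≠ 0 := by
    intro j hj1 hj2 h
    rw [ZMod.natCast_eq_zero_iff] at h
    have := Nat.le_of_dvd (by omega) h
    omega
  refine Finset.card_bij (fun j _ => (b * (j : ZMod s)).val) ?_ ?_ ?_
  · intro j hj
    simp only [Finset.mem_filter, Finset.mem_Ico, mem_Aset] at hj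
    obtain ⟨⟨hj1, hj2⟩, _, hj4⟩ := hj
    rw [← hb] at hj4
    rw [Finset.mem_Ico]
    constructor
    · rcases Nat.eq_zero_or_pos (b * (j : ZMod s)).val with h | h
      · exfalso
        exact mul_ne_zero hb0 (hjne j hj1 (by omega)) ((ZMod.val_eq_zero _).mp h)
      · exact h
    · omega
  · intro i hi j hj hij
    simp only [Finset.mem_filter, Finset.mem_Ico] at hi hj
    have h3 := ZMod.val_injective s hij
    have h4 := mul_left_cancel₀ hb0 h3
    rw [ZMod.natCast_eq_natCast_iff', Nat.mod_eq_of_lt (by omega), Nat.mod_eq_of_lt (by omega)] at h4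
    exact h4
  · intro v hv
    rw [Finset.mem_Ico] at hv
    have hv0 : (v : ZMod s) ≠ 0 := hjne v hv.1 (by omega)
    have hvv : ((v : ZMod s)).val = v := ZMod.val_natCast_of_lt (by omega)
    have hjj : (((b⁻¹ * (v : ZMod s)).val : ℕ) : ZMod s) = b⁻¹ * v := ZMod.natCast_zmod_val _
    have hbb : b * (((b⁻¹ * (v : ZMod s)).val : ℕ) : ZMod s) = v := by
      rw [hjj, mul_inv_cancel_left₀ hb0]
    refine ⟨(b⁻¹ * (v : ZMod s)).val, ?_, ?_⟩
    · simp only [Finset.mem_filter, Finset.mem_Ico, mem_Aset]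
      have h5 : (b⁻¹ * (v : ZMod s)).val ≠ 0 := by
        intro h
        exact mul_ne_zero (inv_ne_zero hb0) hv0 ((ZMod.val_eq_zero _).mp h)
      have h6 := ZMod.val_lt (b⁻¹ * (v : ZMod s))
      have h7 : (b⁻¹ * (v : ZMod s)).val ≠ s - 1 := by
        intro h
        rw [h, Nat.cast_sub (by omega)] at hbb
        simp only [CharP.cast_eq_zero, Nat.cast_one, zero_sub, mul_neg, mul_one] at hbb
        have h8 : (-b).val = v := by rw [hbb, hvv]
        rw [ZMod.neg_val, if_neg hb0] at h8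
        omega
      refine ⟨⟨by omega, by omega⟩, ha, ?_⟩
      rw [← hb, hbb, hvv]
      omega
    · show (b * (((b⁻¹ * (v : ZMod s)).val : ℕ) : ZMod s)).val = v
      rw [hbb, hvv]

/-- The exponent of `q - z ^ a` in the norm times the product of Jacobi sums. -/
def cexp (a : ZMod s) : ℕ := s - (a⁻¹).val

lemma cexp_cast (a : ZMod s) : ((cexp a : ℕ) : ZMod s) = -a⁻¹ := by
  rw [cexp, Nat.cast_sub (ZMod.val_lt _).le, ZMod.natCast_zmod_val]
  simp

lemma sum_cexp : ∑ a ∈ Finset.univ.erase (0 : ZMod s), a * ((cexp a : ℕ) : ZMod s) = 1 := by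
  have h1 : ∀ a ∈ Finset.univ.erase (0 : ZMod s), a * ((cexp a : ℕ) : ZMod s) = -1 := by
    intro a ha
    have ha0 : a ≠ 0 := Finset.ne_of_mem_erase ha
    rw [cexp_cast, mul_neg, mul_inv_cancel₀ ha0]
  rw [Finset.sum_congr rfl h1, Finset.sum_const, Finset.card_erase_of_mem (Finset.mem_univ _),
    Finset.card_univ, ZMod.card, nsmul_eq_mul, Nat.cast_sub hs.out.one_le]
  simp

end count

section

variable {s : ℕ} [hs : Fact s.Prime] {K : Type} [Field K] [NumberField K]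
  [IsCyclotomicExtension {s} ℚ K] {N : ℕ} [hNp : Fact N.Prime]

omit [IsCyclotomicExtension {s} ℚ K] hNp in
lemma prod_prod_Aset {z : 𝓞 K} (hz : IsPrimitiveRoot z s) {q : ℕ} (hq : 1 < q)
    (hN : N = ∑ i ∈ Finset.range s, q ^ i) :
    (N : 𝓞 K) * ∏ j ∈ Finset.Ico 1 (s - 1), ∏ a ∈ Aset s (j : ZMod s), pe z q a =
      ∏ a ∈ Finset.univ.erase (0 : ZMod s), pe z q a ^ cexp a := by
  classical
  have h1 : ∀ j : ℕ, ∏ a ∈ Aset s (j : ZMod s), pe z q a =
      ∏ a ∈ Finset.univ.erase (0 : ZMod s), if a ∈ Aset s (j : ZMod s) then pe z q a else 1 := by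
    intro j
    rw [← Finset.prod_filter]
    congr 1
    ext a
    simp only [Finset.mem_filter, Finset.mem_erase, Finset.mem_univ, and_true]
    constructor
    · intro h
      exact ⟨((mem_Aset _ a).mp h).1, h⟩
    · intro h
      exact h.2
  simp_rw [h1]
  rw [Finset.prod_comm, ← prod_pe hz hq hN, ← Finset.prod_mul_distrib]
  refine Finset.prod_congr rfl ?_
  intro a ha
  have ha0 : a ≠ 0 := Finset.ne_of_mem_erase ha
  rw [← Finset.prod_filter, Finset.prod_const, count_Aset a ha0, ← pow_succ', cexp]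
  congr 1
  have := ZMod.val_lt (a⁻¹)
  omega

/-- The main product. -/
lemma main_product {z : 𝓞 K} (hz : IsPrimitiveRoot z s) {q : ℕ} (hq : 1 < q)
    (hN : N = ∑ i ∈ Finset.range s, q ^ i) (hsN : s < N) {m : ℕ} (hm : N - 1 = s * m)
    {f : 𝓞 K →+* ZMod N} (hf : f z = (q : ZMod N)) {χ : MulChar (ZMod N) (𝓞 K)}
    (hχs : χ ^ s = 1) (hχ1 : χ ≠ 1) (hχ : ∀ x, f (χ x) = x ^ m)
    {τ : 𝓞 K →+* 𝓞 K} (hτ : τ z * z = 1) :
    ∃ x : 𝓞 K, x * τ x = 1 ∧ (N : 𝓞 K) * ∏ j ∈ Finset.Ico 1 (s - 1), jacobiSum χ (χ ^ j) =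
      x * ∏ a ∈ Finset.univ.erase (0 : ZMod s), pe z q a ^ cexp a := by
  classical
  have h2 := hs.out.two_le
  have hj : ∀ j ∈ Finset.Ico 1 (s - 1), ∃ x : 𝓞 K, x * τ x = 1 ∧
      jacobiSum χ (χ ^ j) = x * ∏ a ∈ Aset s (j : ZMod s), pe z q a := by
    intro j hj
    rw [Finset.mem_Ico] at hj
    apply jacobi_factor hz hq hN hsN hm hf hχs hχ1 hχ hτ
    · intro h
      rw [ZMod.natCast_eq_zero_iff] at h
      have := Nat.le_of_dvd (by omega) h
      omega
    · intro h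
      have h' : ((j + 1 : ℕ) : ZMod s) = 0 := by
        push_cast
        exact h
      rw [ZMod.natCast_eq_zero_iff] at h'
      have := Nat.le_of_dvd (by omega) h'
      omega
  choose! x hx1 hx2 using hj
  refine ⟨∏ j ∈ Finset.Ico 1 (s - 1), x j, ?_, ?_⟩
  · rw [map_prod, ← Finset.prod_mul_distrib]
    exact Finset.prod_eq_one hx1
  · rw [Finset.prod_congr rfl hx2, Finset.prod_mul_distrib, ← prod_prod_Aset hz hq hN]
    ring

end

section dual

variable {s : ℕ}

/-- The unit `1 + t ε` of the dual numbers. -/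
def ee (t : ZMod s) : TrivSqZeroExt (ZMod s) (ZMod s) := 1 + TrivSqZeroExt.inr t

lemma ee_add (t u : ZMod s) : ee (t + u) = ee t * ee u := by
  simp only [ee]
  ext
  · simp
  · simp [add_comm]

lemma ee_zero : ee (0 : ZMod s) = 1 := by simp [ee]

lemma ee_pow (t : ZMod s) (n : ℕ) : ee t ^ n = ee ((n : ZMod s) * t) := by
  induction n with
  | zero => simp [ee_zero]
  | succ n ih =>
    rw [pow_succ, ih, ← ee_add]
    congr 1
    push_cast
    ring

lemma ee_prod {ι : Type*} (S : Finset ι) (t : ι → ZMod s) :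
    ∏ i ∈ S, ee (t i) = ee (∑ i ∈ S, t i) := by
  classical
  induction S using Finset.induction_on with
  | empty => simp [ee_zero]
  | insert a S ha ih => rw [Finset.prod_insert ha, Finset.sum_insert ha, ih, ee_add]

lemma sum_ee [hs : Fact s.Prime] (hs2 : s ≠ 2) : ∑ i ∈ Finset.range s, (ee (1 : ZMod s)) ^ i = 0 := by
  have h1 : ∀ i : ℕ, (ee (1 : ZMod s)) ^ i = 1 + TrivSqZeroExt.inr (i : ZMod s) := by
    intro i
    rw [ee_pow, mul_one]
    rfl
  simp_rw [h1]
  rw [Finset.sum_add_distrib, Finset.sum_const, Finset.card_range, nsmul_eq_mul, mul_one]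
  have h2 : ∑ i ∈ Finset.range s, (i : ZMod s) = 0 := by
    have h3 := Finset.sum_range_id_mul_two s
    have h4 : ((∑ i ∈ Finset.range s, i : ℕ) : ZMod s) * 2 = 0 := by
      have := congrArg (fun n : ℕ => (n : ZMod s)) h3
      push_cast at this
      push_cast
      rw [this]
      simp
    have h5 : (2 : ZMod s) ≠ 0 := by
      intro h
      have h6 : ((2 : ℕ) : ZMod s) = 0 := by exact_mod_cast h
      rw [ZMod.natCast_eq_zero_iff] at h6
      have := Nat.le_of_dvd (by norm_num) h6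
      have := hs.out.two_le
      omega
    have := (mul_eq_zero.mp h4).resolve_right h5
    push_cast at this
    exact this
  have h3 : ∑ i ∈ Finset.range s, (TrivSqZeroExt.inr (i : ZMod s) : TrivSqZeroExt (ZMod s) (ZMod s))
      = TrivSqZeroExt.inr (∑ i ∈ Finset.range s, (i : ZMod s)) := by
    rw [← TrivSqZeroExt.inrHom_apply (ZMod s) (ZMod s), map_sum]
    rfl
  rw [h3, h2]
  ext
  · simp
  · simp

end dual

section

variable {s : ℕ} [hs : Fact s.Prime] {K : Type} [Field K] [NumberField K]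
  [IsCyclotomicExtension {s} ℚ K] {N : ℕ} [hNp : Fact N.Prime]

/-- The congruence modulo the square of `1 - z`. -/
lemma exponent (hs2 : s ≠ 2) {z : 𝓞 K} (hz : IsPrimitiveRoot z s) {q : ℕ}
    (hN : N = ∑ i ∈ Finset.range s, q ^ i) {m : ℕ} (hm : N - 1 = s * m)
    {χ : MulChar (ZMod N) (𝓞 K)}
    (hχs : χ ^ s = 1) (k : ℕ)
    (hk : (N : 𝓞 K) * ∏ j ∈ Finset.Ico 1 (s - 1), jacobiSum χ (χ ^ j) =
      (-z) ^ k * ∏ a ∈ Finset.univ.erase (0 : ZMod s), pe z q a ^ cexp a) :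
    (k : ZMod s) * ((q : ZMod s) - 1) = 1 := by
  have h2 := hs.out.two_le
  have hodd : Odd s := hs.out.odd_of_ne_two hs2
  have hN1 : 1 < N := hNp.out.one_lt
  have hNs : (N : ZMod s) = 1 := by
    have h1 : N = s * m + 1 := by omega
    rw [h1]
    simp
  have hu0 : (q : ZMod s) - 1 ≠ 0 := by
    intro h
    have h1 : (q : ZMod s) = 1 := sub_eq_zero.mp h
    rw [hN] at hNs
    push_cast at hNs
    rw [h1] at hNs
    simp at hNs
  set u : ZMod s := (q : ZMod s) - 1 with hu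
  obtain ⟨θ, hθ⟩ := exists_lift hz (ee (1 : ZMod s)) (sum_ee hs2)
  have hE : ∀ n : ℕ, ((n : ℕ) : TrivSqZeroExt (ZMod s) (ZMod s)) = TrivSqZeroExt.inl (n : ZMod s) := by
    intro n
    ext <;> simp
  have hJ : ∀ j ∈ Finset.Ico 1 (s - 1), θ (jacobiSum χ (χ ^ j)) = -1 := by
    intro j _
    obtain ⟨w, _, hw⟩ := exists_jacobiSum_eq_neg_one_add (F := ZMod N) (n := s) (by omega)
      (χ := χ) (ψ := χ ^ j) hχs (by rw [← pow_mul, mul_comm, pow_mul, hχs, one_pow])
      (by rw [ZMod.card]; exact ⟨m, hm⟩) hz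
    rw [hw, map_add, map_mul, map_pow, map_sub, hθ, map_neg, map_one]
    have h0 : (ee (1 : ZMod s) - 1) ^ 2 = 0 := by
      rw [ee, add_sub_cancel_left, sq]
      exact TrivSqZeroExt.inr_mul_inr _ _ _
    rw [h0, mul_zero, add_zero]
  have hpe : ∀ a : ZMod s, θ (pe z q a) = TrivSqZeroExt.inl u * ee (-a * u⁻¹) := by
    intro a
    rw [pe, map_sub, map_natCast, map_pow, hθ, ee_pow, mul_one, ZMod.natCast_zmod_val, hE, ee, ee]
    ext
    · simp [hu]
    · simp
      field_simp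
  have hL : θ ((N : 𝓞 K) * ∏ j ∈ Finset.Ico 1 (s - 1), jacobiSum χ (χ ^ j)) = -1 := by
    rw [map_mul, map_natCast, map_prod, Finset.prod_congr rfl hJ, Finset.prod_const, Nat.card_Ico,
      hE, hNs]
    have h3 : Odd (s - 1 - 1) := by
      obtain ⟨c, hc⟩ := hodd
      exact ⟨c - 1, by omega⟩
    rw [h3.neg_one_pow]
    simp
  have hR : θ ((-z) ^ k * ∏ a ∈ Finset.univ.erase (0 : ZMod s), pe z q a ^ cexp a) =
      TrivSqZeroExt.inl ((-1) ^ k * u ^ (∑ a ∈ Finset.univ.erase (0 : ZMod s), cexp a)) *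
        ee ((k : ZMod s) - u⁻¹) := by
    rw [map_mul, map_prod, map_pow, map_neg, hθ, neg_pow, ee_pow, mul_one]
    have h4 : ∀ a ∈ Finset.univ.erase (0 : ZMod s), θ (pe z q a ^ cexp a) =
        TrivSqZeroExt.inl u ^ cexp a * ee ((cexp a : ZMod s) * (-a * u⁻¹)) := by
      intro a _
      rw [map_pow, hpe, mul_pow, ee_pow]
    rw [Finset.prod_congr rfl h4, Finset.prod_mul_distrib, Finset.prod_pow_eq_pow_sum, ee_prod]
    have h5 : ∑ a ∈ Finset.univ.erase (0 : ZMod s), (cexp a : ZMod s) * (-a * u⁻¹) = -u⁻¹ := by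
      have h6 : ∑ a ∈ Finset.univ.erase (0 : ZMod s), (cexp a : ZMod s) * (-a * u⁻¹) =
          (∑ a ∈ Finset.univ.erase (0 : ZMod s), a * (cexp a : ZMod s)) * (-u⁻¹) := by
        rw [Finset.sum_mul]
        refine Finset.sum_congr rfl ?_
        intro a _
        ring
      rw [h6, sum_cexp, one_mul]
    rw [h5, sub_eq_add_neg, ee_add]
    have h7 : ((-1 : TrivSqZeroExt (ZMod s) (ZMod s))) ^ k *
        TrivSqZeroExt.inl u ^ (∑ a ∈ Finset.univ.erase (0 : ZMod s), cexp a) =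
        TrivSqZeroExt.inl ((-1) ^ k * u ^ (∑ a ∈ Finset.univ.erase (0 : ZMod s), cexp a)) := by
      rw [TrivSqZeroExt.inl_mul, ← TrivSqZeroExt.inl_pow, ← TrivSqZeroExt.inl_pow,
        TrivSqZeroExt.inl_neg, TrivSqZeroExt.inl_one]
    rw [← h7]
    ring
  rw [hk, hR] at hL
  have h8 := congrArg TrivSqZeroExt.snd hL
  simp only [ee, TrivSqZeroExt.snd_mul, TrivSqZeroExt.fst_inl, TrivSqZeroExt.snd_inl,
    TrivSqZeroExt.snd_add, TrivSqZeroExt.snd_one, TrivSqZeroExt.snd_inr, TrivSqZeroExt.snd_neg,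
    smul_eq_mul, zero_add, neg_zero] at h8
  have h9 : ((-1 : ZMod s)) ^ k * u ^ (∑ a ∈ Finset.univ.erase (0 : ZMod s), cexp a) ≠ 0 := by
    refine mul_ne_zero (pow_ne_zero _ ?_) (pow_ne_zero _ hu0)
    exact neg_ne_zero.mpr one_ne_zero
  have h10 : (k : ZMod s) - u⁻¹ = 0 := by
    simp only [MulOpposite.smul_eq_mul_unop, MulOpposite.unop_op, zero_mul, add_zero] at h8
    exact (mul_eq_zero.mp h8).resolve_left h9
  rw [sub_eq_zero.mp h10, inv_mul_cancel₀ hu0]

end

end Pool.Agent.CAC67D
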