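import Pool.Agent.W_cac67d_h30.ModL

open NumberField Polynomial

namespace Pool.Agent.CAC67D

section

lemma frob_iter {R R' : Type*} [CommRing R] [Fintype R] [CommRing R'] (p : ℕ) [Fact p.Prime]
    [CharP R' p] (χ : MulChar R R') (ψ : AddChar R R') (n : ℕ) :
    gaussSum χ ψ ^ (p ^ n) = gaussSum (χ ^ (p ^ n)) (ψ ^ (p ^ n)) := by
  induction n with
  | zero => simp
  | succ n ih =>
    rw [pow_succ, pow_mul, ih, gaussSum_frob p, ← pow_mul, ← pow_mul]

variable {s : ℕ} [hs : Fact s.Prime] {K : Type} [Field K] [NumberField K]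
  [IsCyclotomicExtension {s} ℚ K] {N : ℕ} [hNp : Fact N.Prime]

omit [NumberField K] [IsCyclotomicExtension {s} ℚ K] in
lemma rho_prim {z : 𝓞 K} (hz : IsPrimitiveRoot z s) {p : ℕ} [hp : Fact p.Prime] (hps : p ≠ s)
    {L : Type} [Field L] [CharP L p] (ρ : 𝓞 K →+* L) : IsPrimitiveRoot (ρ z) s := by
  have h1 : (ρ z) ^ s = 1 := by rw [← map_pow, hz.pow_eq_one, map_one]
  have h2 : ρ z ≠ 1 := by
    intro h
    have h3 : ∑ i ∈ Finset.range s, z ^ i = 0 :=
      geom_zero z hz.pow_eq_one (hz.ne_one hs.out.one_lt)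
    have h4 := congrArg ρ h3
    rw [map_sum, map_zero] at h4
    simp only [map_pow, h, one_pow, Finset.sum_const, Finset.card_range, nsmul_eq_mul,
      mul_one] at h4
    rw [CharP.cast_eq_zero_iff L p] at h4
    exact hps ((Nat.prime_dvd_prime_iff_eq hp.out hs.out).mp h4)
  have h3 : orderOf (ρ z) = s := orderOf_eq_prime h1 h2
  have := IsPrimitiveRoot.orderOf (ρ z)
  rwa [h3] at this

omit [NumberField K] [IsCyclotomicExtension {s} ℚ K] in
/-- In characteristic `p` the product of the Jacobi sums has `Q`-th power one. -/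
lemma modp_power (hs2 : s ≠ 2) {z : 𝓞 K} (hz : IsPrimitiveRoot z s) {p : ℕ} [hp : Fact p.Prime]
    (hps : p ≠ s) (hpN : p ≠ N) {χ : MulChar (ZMod N) (𝓞 K)} (hχs : χ ^ s = 1) (hχ1 : χ ≠ 1)
    (hχp : χ (p : ZMod N) = 1) {L : Type} [Field L] [CharP L p] [IsAlgClosed L]
    (ρ : 𝓞 K →+* L) {Q : ℕ} (hQ : p ^ (s - 1) - 1 = s * Q) :
    ρ ((N : 𝓞 K) * ∏ j ∈ Finset.Ico 1 (s - 1), jacobiSum χ (χ ^ j)) ^ Q = 1 := by
  classical
  have hodd : Odd s := hs.out.odd_of_ne_two hs2
  have hρz := rho_prim hz hps ρ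
  set χ' := χ.ringHomComp ρ with hχ'
  have hχ's : χ' ^ s = 1 := by
    rw [hχ', MulChar.ringHomComp_pow, hχs]
    exact MulChar.ringHomComp_one ρ
  have hχ'1 : χ' ≠ 1 := by
    intro h
    apply hχ1
    apply MulChar.ext
    intro a
    obtain ⟨k, hk, hk2⟩ := MulChar.exists_apply_eq_pow hχs hz (a := (a : ZMod N)) a.ne_zero
    have h1 : χ' (a : ZMod N) = 1 := by rw [h, MulChar.one_apply_coe]
    rw [hχ', MulChar.ringHomComp_apply, hk2, map_pow] at h1
    have h2 : k = 0 := by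
      by_contra hk0
      have h3 := hρz.dvd_of_pow_eq_one k h1
      have := Nat.le_of_dvd (Nat.pos_of_ne_zero hk0) h3
      omega
    rw [hk2, h2, pow_zero, MulChar.one_apply_coe]
  have hord : orderOf χ' = s := orderOf_eq_prime hχ's hχ'1
  have hNL : (N : L) ≠ 0 := by
    intro h
    rw [CharP.cast_eq_zero_iff L p] at h
    exact hpN ((Nat.prime_dvd_prime_iff_eq hp.out hNp.out).mp h)
  have : NeZero (N : L) := ⟨hNL⟩
  obtain ⟨w, hw⟩ := HasEnoughRootsOfUnity.exists_primitiveRoot L N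
  set ψ : AddChar (ZMod N) L := AddChar.zmodChar N hw.pow_eq_one with hψ
  have hψp : ψ.IsPrimitive := AddChar.zmodChar_primitive_of_primitive_root N hw
  set g := gaussSum χ' ψ with hg
  have hg0 : g ≠ 0 := by
    apply gaussSum_ne_zero_of_nontrivial _ hχ'1 hψp
    rw [ZMod.card]
    exact hNL
  have h1 := gaussSum_pow_eq_prod_jacobiSum (χ := χ') (ψ := ψ) (by
    rw [hord]
    exact hs.out.two_le) hψp
  rw [hord, ZMod.card] at h1
  have hm1 : χ' (-1) = 1 := by
    have h2 : χ' (-1) ^ 2 = 1 := by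
      rw [← map_pow, neg_one_sq, map_one]
    have h3 : χ' (-1) ^ s = 1 := by
      rw [← MulChar.pow_apply' _ (NeZero.ne s), hχ's]
      exact MulChar.one_apply isUnit_one.neg
    obtain ⟨c, hc⟩ := hodd
    rw [hc, pow_succ, pow_mul, h2, one_pow, one_mul] at h3
    exact h3
  have hgs : g ^ s = ρ ((N : 𝓞 K) * ∏ j ∈ Finset.Ico 1 (s - 1), jacobiSum χ (χ ^ j)) := by
    rw [hg, h1, hm1, one_mul, map_mul, map_natCast, map_prod]
    congr 1
    refine Finset.prod_congr rfl ?_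
    intro j _
    rw [hχ', MulChar.ringHomComp_pow, jacobiSum_ringHomComp]
  have hps1 : p ^ (s - 1) = s * Q + 1 := by
    have : 1 ≤ p ^ (s - 1) := Nat.one_le_pow _ _ hp.out.pos
    omega
  have hfrob : g ^ (p ^ (s - 1)) = g := by
    rw [hg, frob_iter p]
    have h2 : χ' ^ (p ^ (s - 1)) = χ' := by
      rw [hps1, pow_succ, pow_mul, hχ's, one_pow, one_mul]
    have hpu : (p : ZMod N) ≠ 0 := by
      intro h
      rw [ZMod.natCast_eq_zero_iff] at h
      exact hpN ((Nat.prime_dvd_prime_iff_eq hNp.out hp.out).mp h).symm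
    have h3 := gaussSum_mulShift χ' ψ (Units.mk0 ((p : ZMod N) ^ (s - 1)) (pow_ne_zero _ hpu))
    have h4 : χ' ((p : ZMod N) ^ (s - 1)) = 1 := by
      rw [map_pow, hχ', MulChar.ringHomComp_apply, hχp, map_one, one_pow]
    rw [h2, AddChar.pow_mulShift]
    rw [Units.val_mk0, h4, one_mul] at h3
    rw [← h3]
    push_cast
    rfl
  rw [← hgs, ← pow_mul]
  have h5 : g ^ (s * Q) * g = 1 * g := by
    rw [one_mul, ← pow_succ, ← hps1, hfrob]
  exact mul_right_cancel₀ hg0 h5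

end

end Pool.Agent.CAC67D
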