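import Pool.Agent.W_cac67d_h30.Basic

open NumberField Polynomial

namespace Pool.Agent.CAC67D

section

variable {s : ℕ} [hs : Fact s.Prime] {K : Type} [Field K] [NumberField K]
  [IsCyclotomicExtension {s} ℚ K]

/-- The element `q - z ^ a` of the cyclotomic ring. -/
noncomputable def pe (z : 𝓞 K) (q : ℕ) (a : ZMod s) : 𝓞 K := (q : 𝓞 K) - z ^ a.val

omit [NumberField K] [IsCyclotomicExtension {s} ℚ K] in
lemma pow_val_natCast {R : Type*} [CommRing R] {z : R} (hz : z ^ s = 1) (n : ℕ) :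
    z ^ ((n : ZMod s).val) = z ^ n := by
  rw [ZMod.val_natCast, ← pow_eq_pow_mod n hz]

omit [NumberField K] [IsCyclotomicExtension {s} ℚ K] in
lemma pow_val_add {R : Type*} [CommRing R] {z : R} (hz : z ^ s = 1) (a b : ZMod s) :
    z ^ ((a + b).val) = z ^ a.val * z ^ b.val := by
  rw [← pow_add, ← pow_val_natCast hz (a.val + b.val), Nat.cast_add, ZMod.natCast_zmod_val,
    ZMod.natCast_zmod_val]

omit [NumberField K] [IsCyclotomicExtension {s} ℚ K] in
lemma pow_val_mul {R : Type*} [CommRing R] {z : R} (hz : z ^ s = 1) (a b : ZMod s) :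
    z ^ ((a * b).val) = (z ^ a.val) ^ b.val := by
  rw [← pow_mul, ← pow_val_natCast hz (a.val * b.val), Nat.cast_mul, ZMod.natCast_zmod_val,
    ZMod.natCast_zmod_val]

omit [NumberField K] [IsCyclotomicExtension {s} ℚ K] in
lemma pow_val_neg {R : Type*} [CommRing R] {z : R} (hz : z ^ s = 1) (a : ZMod s) :
    z ^ ((-a).val) * z ^ a.val = 1 := by
  rw [← pow_val_add hz]
  simp

omit [NumberField K] [IsCyclotomicExtension {s} ℚ K] in
lemma pow_eq_of_cast_eq {R : Type*} [CommRing R] {z : R} (hz : z ^ s = 1) (m n : ℕ)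
    (h : (m : ZMod s) = n) : z ^ m = z ^ n := by
  rw [← pow_val_natCast (s := s) hz m, ← pow_val_natCast (s := s) hz n, h]

omit [NumberField K] [IsCyclotomicExtension {s} ℚ K] in
lemma prod_pe_zero {z : 𝓞 K} (hz : IsPrimitiveRoot z s) (q : ℕ) :
    (q : 𝓞 K) ^ s - 1 = ∏ a : ZMod s, pe z q a := by
  have h := hz.pow_sub_pow_eq_prod_sub_mul (q : 𝓞 K) 1 (NeZero.pos s)
  rw [one_pow] at h
  rw [h]
  symm
  refine Finset.prod_bij (fun a _ => z ^ a.val) ?_ ?_ ?_ ?_
  · intro a _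
    rw [mem_nthRootsFinset (NeZero.pos s)]
    rw [← pow_mul, mul_comm, pow_mul, hz.pow_eq_one, one_pow]
  · intro a _ b _ hab
    exact ZMod.val_injective s (hz.pow_inj (ZMod.val_lt a) (ZMod.val_lt b) hab)
  · intro b hb
    rw [mem_nthRootsFinset (NeZero.pos s)] at hb
    obtain ⟨i, hi, hb⟩ := hz.eq_pow_of_pow_eq_one hb
    refine ⟨(i : ZMod s), Finset.mem_univ _, ?_⟩
    rw [ZMod.val_natCast_of_lt hi, hb]
  · intro a _
    rw [mul_one]
    rfl

omit [IsCyclotomicExtension {s} ℚ K] in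
lemma prod_pe {z : 𝓞 K} (hz : IsPrimitiveRoot z s) {q N : ℕ} (hq : 1 < q)
    (hN : N = ∑ i ∈ Finset.range s, q ^ i) :
    ∏ a ∈ Finset.univ.erase (0 : ZMod s), pe z q a = N := by
  have h := prod_pe_zero hz q
  rw [← Finset.mul_prod_erase Finset.univ _ (Finset.mem_univ (0 : ZMod s))] at h
  have h0 : pe z q (0 : ZMod s) = (q : 𝓞 K) - 1 := by
    simp [pe]
  have h1 : (q : 𝓞 K) - 1 ≠ 0 := by
    intro h
    have h2 : ((q : ℕ) : 𝓞 K) = ((1 : ℕ) : 𝓞 K) := by
      rw [Nat.cast_one]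
      exact sub_eq_zero.mp h
    have h3 : ((q : ℕ) : K) = ((1 : ℕ) : K) := by
      have := congrArg (algebraMap (𝓞 K) K) h2
      simpa using this
    have h4 : q = 1 := Nat.cast_injective h3
    omega
  rw [h0, ← geom_sum_mul, mul_comm] at h
  have h2 := mul_left_cancel₀ h1 h
  rw [← h2, hN]
  push_cast
  rfl

variable {N : ℕ} [hNp : Fact N.Prime]

omit hs in
lemma q_ne_one {q : ℕ} (hN : N = ∑ i ∈ Finset.range s, q ^ i) (hsN : s < N) (hs1 : 0 < s) :
    (q : ZMod N) ≠ 1 := by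
  intro h
  have h1 : ((N : ℕ) : ZMod N) = ((∑ i ∈ Finset.range s, q ^ i : ℕ) : ZMod N) := by rw [← hN]
  rw [ZMod.natCast_self] at h1
  push_cast at h1
  rw [h] at h1
  simp only [one_pow, Finset.sum_const, Finset.card_range, nsmul_eq_mul, mul_one] at h1
  have h2 := (ZMod.natCast_eq_zero_iff s N).mp h1.symm
  exact absurd (Nat.le_of_dvd hs1 h2) (by omega)

omit hs in
lemma q_pow {q : ℕ} (hN : N = ∑ i ∈ Finset.range s, q ^ i) :
    (q : ZMod N) ^ s = 1 := by
  have h1 : ((N : ℕ) : ZMod N) = ((∑ i ∈ Finset.range s, q ^ i : ℕ) : ZMod N) := by rw [← hN]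
  rw [ZMod.natCast_self] at h1
  push_cast at h1
  have h := geom_sum_mul (q : ZMod N) s
  rw [← h1, zero_mul] at h
  exact (sub_eq_zero.mp h.symm)

lemma q_prim {q : ℕ} (hN : N = ∑ i ∈ Finset.range s, q ^ i) (hsN : s < N) :
    IsPrimitiveRoot (q : ZMod N) s := by
  have h1 := q_pow hN
  have h2 := q_ne_one hN hsN (NeZero.pos s)
  have h3 : orderOf (q : ZMod N) = s := orderOf_eq_prime h1 h2
  have := IsPrimitiveRoot.orderOf (q : ZMod N)
  rwa [h3] at this

/-- The reduction homomorphism with kernel generated by `q - z ^ a`. -/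
lemma exists_red {z : 𝓞 K} (hz : IsPrimitiveRoot z s) {q : ℕ}
    (hN : N = ∑ i ∈ Finset.range s, q ^ i) (hsN : s < N) (a : ZMod s) (ha : a ≠ 0) :
    ∃ f : 𝓞 K →+* ZMod N, f z = (q : ZMod N) ^ (a⁻¹).val := by
  have hp := q_prim hN hsN
  refine exists_lift_dom hz _ ?_ ?_
  · rw [← pow_mul, mul_comm, pow_mul, hp.pow_eq_one, one_pow]
  · intro h
    have h1 : (a⁻¹).val = 0 := by
      have := hp.pow_inj (ZMod.val_lt (a⁻¹)) (NeZero.pos s) (by rw [h, pow_zero])
      exact this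
    rw [ZMod.val_eq_zero] at h1
    exact ha (inv_eq_zero.mp h1)

omit [NumberField K] [IsCyclotomicExtension {s} ℚ K] in
lemma red_pow {z : 𝓞 K} {q : ℕ}
    (hN : N = ∑ i ∈ Finset.range s, q ^ i) {a : ZMod s} (ha : a ≠ 0)
    {f : 𝓞 K →+* ZMod N} (hf : f z = (q : ZMod N) ^ (a⁻¹).val) : f (z ^ a.val) = q := by
  rw [map_pow, hf, ← pow_val_mul (q_pow hN), inv_mul_cancel₀ ha]
  rw [ZMod.val_one'' hs.out.one_lt.ne', pow_one]

lemma red_zero_iff {z : 𝓞 K} (hz : IsPrimitiveRoot z s) {q : ℕ} (hq : 1 < q)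
    (hN : N = ∑ i ∈ Finset.range s, q ^ i) {a : ZMod s} (ha : a ≠ 0)
    {f : 𝓞 K →+* ZMod N} (hf : f z = (q : ZMod N) ^ (a⁻¹).val) (x : 𝓞 K) :
    f x = 0 ↔ pe z q a ∣ x := by
  have hNd : pe z q a ∣ (N : 𝓞 K) := by
    rw [← prod_pe hz hq hN]
    exact Finset.dvd_prod_of_mem _ (by simp [ha])
  constructor
  · intro hx
    obtain ⟨g, hg⟩ := exists_poly hz x
    -- rewrite `x` as a polynomial in `z ^ a`
    set w : 𝓞 K := z ^ a.val with hw
    have hzw : z = w ^ (a⁻¹).val := by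
      rw [hw, ← pow_val_mul hz.pow_eq_one, mul_inv_cancel₀ ha, ZMod.val_one'' hs.out.one_lt.ne',
        pow_one]
    have hgw : x = aeval w (g.comp (X ^ (a⁻¹).val)) := by
      rw [aeval_comp, hg]
      simp only [map_pow, aeval_X]
      rw [← hzw]
    set G := g.comp (X ^ (a⁻¹).val) with hG
    have h1 : f x = aeval (q : ZMod N) G := by
      rw [hgw, hom_aeval, red_pow hN ha hf]
    have h2 : aeval (q : ZMod N) G = ((G.eval (q : ℤ) : ℤ) : ZMod N) := by
      rw [aeval_def, eval₂_eq_eval_map]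
      have : (q : ZMod N) = (algebraMap ℤ (ZMod N)) (q : ℤ) := by simp
      rw [this, eval_map, eval₂_at_apply]
      simp
    rw [hx] at h1
    rw [h2] at h1
    have h3 : (N : ℤ) ∣ G.eval (q : ℤ) := (ZMod.intCast_zmod_eq_zero_iff_dvd _ _).mp h1.symm
    have h4 : pe z q a ∣ ((G.eval (q : ℤ) : ℤ) : 𝓞 K) := by
      obtain ⟨c, hc⟩ := h3
      rw [hc]
      push_cast
      exact hNd.mul_right _
    have h5 : ((G.eval (q : ℤ) : ℤ) : 𝓞 K) = aeval (q : 𝓞 K) G := by
      rw [aeval_def, eval₂_eq_eval_map]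
      have : (q : 𝓞 K) = (algebraMap ℤ (𝓞 K)) (q : ℤ) := by simp
      rw [this, eval_map, eval₂_at_apply]
      simp
    have h6 : pe z q a ∣ aeval (q : 𝓞 K) G - aeval w G := by
      rw [aeval_def, aeval_def, eval₂_eq_eval_map, eval₂_eq_eval_map]
      exact sub_dvd_eval_sub _ _ _
    rw [h5] at h4
    rw [hgw]
    have := dvd_sub h4 h6
    simpa using this
  · rintro ⟨c, rfl⟩
    rw [map_mul]
    have : f (pe z q a) = 0 := by
      rw [pe, map_sub, map_natCast, red_pow hN ha hf, sub_self]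
    rw [this, zero_mul]

lemma pe_ne_zero {z : 𝓞 K} (hz : IsPrimitiveRoot z s) {q : ℕ} (hq : 1 < q)
    (hN : N = ∑ i ∈ Finset.range s, q ^ i) {a : ZMod s} (ha : a ≠ 0) : pe z q a ≠ 0 := by
  intro h
  have h1 := prod_pe hz hq hN
  rw [Finset.prod_eq_zero (i := a) (by simp [ha]) h] at h1
  have h3 : ((N : ℕ) : K) = 0 := by
    have := congrArg (algebraMap (𝓞 K) K) h1
    simpa using this.symm
  have h4 : N = 0 := Nat.cast_eq_zero.mp h3
  exact hNp.out.ne_zero h4

lemma pe_prime {z : 𝓞 K} (hz : IsPrimitiveRoot z s) {q : ℕ} (hq : 1 < q)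
    (hN : N = ∑ i ∈ Finset.range s, q ^ i) (hsN : s < N) {a : ZMod s} (ha : a ≠ 0) :
    Prime (pe z q a) := by
  obtain ⟨f, hf⟩ := exists_red hz hN hsN a ha
  refine ⟨pe_ne_zero hz hq hN ha, ?_, ?_⟩
  · intro h
    have h1 := (red_zero_iff hz hq hN ha hf (pe z q a)).mpr dvd_rfl
    have h2 := h.map f
    rw [h1] at h2
    exact not_isUnit_zero h2
  · intro x y hxy
    rw [← red_zero_iff hz hq hN ha hf] at hxy ⊢
    rw [← red_zero_iff hz hq hN ha hf]
    rw [map_mul] at hxy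
    exact mul_eq_zero.mp hxy

lemma pe_not_dvd {z : 𝓞 K} (hz : IsPrimitiveRoot z s) {q : ℕ} (hq : 1 < q)
    (hN : N = ∑ i ∈ Finset.range s, q ^ i) (hsN : s < N) {a b : ZMod s} (ha : a ≠ 0)
    (hab : a ≠ b) : ¬ pe z q a ∣ pe z q b := by
  obtain ⟨f, hf⟩ := exists_red hz hN hsN a ha
  rw [← red_zero_iff hz hq hN ha hf]
  intro h
  have hp := q_prim hN hsN
  have h1 : f (z ^ b.val) = (q : ZMod N) := by
    rw [pe, map_sub, map_natCast] at h
    exact (sub_eq_zero.mp h).symm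
  rw [map_pow, hf, ← pow_val_mul (q_pow hN)] at h1
  have h2 : (a⁻¹ * b).val = 1 := by
    apply hp.pow_inj (ZMod.val_lt _) hs.out.one_lt
    rw [h1, pow_one]
  have h3 : a⁻¹ * b = 1 := by
    apply ZMod.val_injective
    rw [h2, ZMod.val_one'' hs.out.one_lt.ne']
  apply hab
  rw [inv_mul_eq_one₀ ha] at h3
  exact h3

/-- A product of different `q - z ^ a` divides as soon as each factor does. -/
lemma prod_pe_dvd {z : 𝓞 K} (hz : IsPrimitiveRoot z s) {q : ℕ} (hq : 1 < q)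
    (hN : N = ∑ i ∈ Finset.range s, q ^ i) (hsN : s < N) (A : Finset (ZMod s))
    (hA : ∀ a ∈ A, a ≠ 0) (x : 𝓞 K) (hx : ∀ a ∈ A, pe z q a ∣ x) :
    ∏ a ∈ A, pe z q a ∣ x := by
  classical
  induction A using Finset.induction_on with
  | empty => simp
  | insert a A haA ih =>
    rw [Finset.prod_insert haA]
    obtain ⟨c, hc⟩ := ih (fun b hb => hA b (Finset.mem_insert_of_mem hb))
      (fun b hb => hx b (Finset.mem_insert_of_mem hb))
    have ha0 := hA a (Finset.mem_insert_self a A)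
    have hpr := pe_prime hz hq hN hsN ha0
    have h1 := hx a (Finset.mem_insert_self a A)
    rw [hc] at h1
    rcases hpr.dvd_or_dvd h1 with h | h
    · exfalso
      obtain ⟨b, hb, hb2⟩ := hpr.exists_mem_finset_dvd h
      refine pe_not_dvd hz hq hN hsN ha0 ?_ hb2
      rintro rfl
      exact haA hb
    · obtain ⟨d, hd⟩ := h
      rw [hc, hd, mul_comm (pe z q a)]
      exact ⟨d, by ring⟩

end

end Pool.Agent.CAC67D
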